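import Mathlib

namespace Pool.Agent.Results.MP_c75f22_co.OrderSeven

/-- f restricts to a Costas permutation of 1..n. -/
def IsCostas (n : ℕ) (f : ℕ → ℕ) : Prop :=
  Set.BijOn f (Set.Icc 1 n) (Set.Icc 1 n) ∧
  ∀ i ∈ Set.Icc 1 n, ∀ j ∈ Set.Icc 1 n, ∀ k ∈ Set.Icc 1 n, ∀ l ∈ Set.Icc 1 n, j < i → l < k →
    (i : ℤ) - j = (k : ℤ) - l → (f i : ℤ) - f j = (f k : ℤ) - f l → i = k ∧ j = l

/-- g is the Golomb permutation G_2(q, α, β) on 1..q-2, where q is the order of F. -/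
def IsG2 (F : Type) [Field F] (α β : F) (g : ℕ → ℕ) : Prop :=
  IsPrimitiveRoot α (Nat.card F - 1) ∧ IsPrimitiveRoot β (Nat.card F - 1) ∧
  ∀ i ∈ Set.Icc 1 (Nat.card F - 2), g i ∈ Set.Icc 1 (Nat.card F - 2) ∧ α ^ g i + β ^ i = 1

/-- f is the array RG_1(q, α, β, t1, t2) on 1..q-1. -/
def IsRG1 (F : Type) [Field F] (α β : F) (t1 t2 : ℕ) (f : ℕ → ℕ) : Prop :=
  t1 ∈ Set.Icc 2 (Nat.card F - 2) ∧ t2 ∈ Set.Icc 2 (Nat.card F - 2) ∧
  ∃ g : ℕ → ℕ, IsG2 F α β g ∧ f t1 = t2 ∧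
    ∀ i ∈ Set.Icc 1 (Nat.card F - 1), i ≠ t1 →
      (f i : ℤ) = ((g ((((i : ℤ) - t1 - 1) % ((Nat.card F : ℤ) - 1)).toNat + 1) : ℤ) + t2 - 1) %
        ((Nat.card F : ℤ) - 1) + 1

def f0 (i : ℕ) : ℕ := [0, 2, 1, 6, 4, 7, 3, 5].getD i 0

def g0 (i : ℕ) : ℕ := [0, 3, 6, 1, 5, 4, 2].getD i 0

lemma exists_gen (F : Type) [Field F] [Finite F] :
    ∃ γ : F, IsPrimitiveRoot γ (Nat.card F - 1) := by
  obtain ⟨u, hu⟩ := IsCyclic.exists_generator (α := Fˣ)
  have h1 : orderOf u = Nat.card Fˣ := orderOf_eq_card_of_forall_mem_zpowers hu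
  rw [Nat.card_units] at h1
  refine ⟨u, ?_⟩
  rw [← h1, IsPrimitiveRoot.coe_units_iff]
  exact IsPrimitiveRoot.orderOf u

lemma nine (F : Type) [Field F] [Finite F] (h : Nat.card F = 9) (h3 : (3 : F) = 0) :
    ∃ α β : F, IsG2 F α β f0 := by
  obtain ⟨γ, hγ⟩ := exists_gen F
  rw [h] at hγ
  have h8 : γ ^ 8 = 1 := hγ.pow_eq_one
  have h4 : γ ^ 4 ≠ 1 := hγ.pow_ne_one_of_pos_of_lt (by norm_num) (by norm_num)
  have h4' : γ ^ 4 = -1 := by
    have : (γ ^ 4 - 1) * (γ ^ 4 + 1) = 0 := by linear_combination h8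
    rcases mul_eq_zero.1 this with h | h
    · exact absurd (by linear_combination h) h4
    · linear_combination h
  obtain ⟨z, hz, hzp⟩ : ∃ z : F, z ^ 2 = 1 - z ∧ IsPrimitiveRoot z 8 := by
    have : (γ ^ 2 + γ - 1) * (γ ^ 2 - γ - 1) = 0 := by
      linear_combination h4' - γ ^ 2 * h3
    rcases mul_eq_zero.1 this with h | h
    · exact ⟨γ, by linear_combination h, hγ⟩
    · refine ⟨γ ^ 5, ?_, hγ.pow_of_coprime 5 (by norm_num)⟩
      linear_combination h + (γ ^ 6 - γ ^ 2 + γ) * h4'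
  have z3 : z ^ 3 = -z - 1 := by linear_combination (z - 1) * hz + z * h3
  have z4 : z ^ 4 = -1 := by linear_combination z * z3 - hz
  have z5 : z ^ 5 = -z := by linear_combination z * z4
  have z6 : z ^ 6 = z - 1 := by linear_combination z * z5 - hz
  have z7 : z ^ 7 = z + 1 := by linear_combination z * z6 + hz - z * h3
  refine ⟨z, z, by rwa [h], by rwa [h], ?_⟩
  rw [h]
  rintro i ⟨h1, h2⟩
  norm_num at h2
  interval_cases i <;> simp [f0]
  · linear_combination hz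
  · linear_combination hz
  · linear_combination z6 + z3 - h3
  · linear_combination 2 * z4 - h3
  · linear_combination z7 + z5
  · linear_combination z6 + z3 - h3
  · linear_combination z7 + z5

lemma eight (F : Type) [Field F] [Finite F] (h : Nat.card F = 8) (h2 : (2 : F) = 0) :
    ∃ α β : F, ∃ t1 t2 : ℕ, IsRG1 F α β t1 t2 f0 := by
  obtain ⟨γ, hγ⟩ := exists_gen F
  rw [h] at hγ
  have h7 : γ ^ 7 = 1 := hγ.pow_eq_one
  have h1 : γ ≠ 1 := hγ.ne_one (by norm_num)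
  obtain ⟨y, hy, hyp⟩ : ∃ y : F, y ^ 3 = y + 1 ∧ IsPrimitiveRoot y 7 := by
    have : (γ - 1) * ((γ ^ 3 + γ + 1) * (γ ^ 3 + γ ^ 2 + 1)) = 0 := by
      linear_combination h7 + (γ ^ 4 - γ ^ 3) * h2
    rcases mul_eq_zero.1 this with h | h
    · exact absurd (by linear_combination h) h1
    rcases mul_eq_zero.1 h with h | h
    · exact ⟨γ, by linear_combination h - (γ + 1) * h2, hγ⟩
    · refine ⟨γ ^ 6, ?_, hγ.pow_of_coprime 6 (by norm_num)⟩
      linear_combination γ ^ 4 * h + (γ ^ 11 + γ ^ 4 - 1) * h7 - (γ ^ 6 + 1) * h2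
  have y4 : y ^ 4 = y ^ 2 + y := by linear_combination y * hy
  have y5 : y ^ 5 = y ^ 2 + y + 1 := by linear_combination y * y4 + hy
  have y6 : y ^ 6 = y ^ 2 + 1 := by linear_combination y * y5 + hy + y * h2
  refine ⟨y, y, 4, 4, by simp [h], by simp [h], g0, ⟨by rwa [h], by rwa [h], ?_⟩, rfl, ?_⟩
  · rw [h]
    rintro i ⟨k1, k2⟩
    norm_num at k2
    interval_cases i <;> simp [g0]
    · linear_combination hy + y * h2
    · linear_combination y6 + y ^ 2 * h2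
    · linear_combination hy + y * h2
    · linear_combination y5 + y4 + (y ^ 2 + y) * h2
    · linear_combination y5 + y4 + (y ^ 2 + y) * h2
    · linear_combination y6 + y ^ 2 * h2
  · rw [h]
    rintro i ⟨h1, h2⟩ h3
    norm_num at h2
    interval_cases i <;> first | exact absurd rfl h3 | decide

theorem result : ∃ f : ℕ → ℕ, IsCostas 7 f ∧
    (Nat.card (GaloisField 3 2) = 9 ∧ ∃ α β : GaloisField 3 2, IsG2 (GaloisField 3 2) α β f) ∧
    (Nat.card (GaloisField 2 3) = 8 ∧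
      ∃ α β : GaloisField 2 3, ∃ t1 t2 : ℕ, IsRG1 (GaloisField 2 3) α β t1 t2 f) := by
  have c9 : Nat.card (GaloisField 3 2) = 9 := GaloisField.card 3 2 (by norm_num)
  have c8 : Nat.card (GaloisField 2 3) = 8 := GaloisField.card 2 3 (by norm_num)
  refine ⟨f0, ⟨?_, ?_⟩, ⟨c9, nine _ c9 ?_⟩, ⟨c8, eight _ c8 ?_⟩⟩
  · rw [← Finset.coe_Icc]
    refine ⟨?_, ?_, ?_⟩
    · intro i hi
      simp only [Finset.coe_Icc, Set.mem_Icc] at hi ⊢
      obtain ⟨h1, h2⟩ := hi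
      interval_cases i <;> simp [f0]
    · intro i hi j hj
      simp only [Finset.coe_Icc, Set.mem_Icc] at hi hj
      obtain ⟨h1, h2⟩ := hi
      obtain ⟨h3, h4⟩ := hj
      interval_cases i <;> interval_cases j <;> simp [f0]
    · rw [Set.SurjOn, ← Finset.coe_image, Finset.coe_subset]
      decide
  · have : ∀ i ∈ Finset.Icc (1 : ℕ) 7, ∀ j ∈ Finset.Icc (1 : ℕ) 7, ∀ k ∈ Finset.Icc (1 : ℕ) 7,
        ∀ l ∈ Finset.Icc (1 : ℕ) 7, j < i → l < k → (i : ℤ) - j = (k : ℤ) - l →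
        (f0 i : ℤ) - f0 j = (f0 k : ℤ) - f0 l → i = k ∧ j = l := by decide +kernel
    intro i hi j hj k hk l hl
    exact this i (by simpa using hi) j (by simpa using hj) k (by simpa using hk) l
      (by simpa using hl)
  · exact_mod_cast CharP.cast_eq_zero (GaloisField 3 2) 3
  · exact_mod_cast CharP.cast_eq_zero (GaloisField 2 3) 2

end Pool.Agent.Results.MP_c75f22_co.OrderSeven
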